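import Pool.Agent.Y924.UF.Stm2

/-!
# Project UF, second part: finiteness is definable with a good element (helper155)
-/

set_option autoImplicit false

namespace Pool.Agent.Y155.UF

open Pool.Agent.Y924.UF

section

variable {p : ℕ} [Fact p.Prime]

theorem mem_OO (z : LaurentSeries (ZMod p)) :
    z ∈ OO p ↔ ∀ n : ℤ, n < 0 → z.coeff n = 0 := by
  constructor
  · rintro ⟨f, rfl⟩ n hn
    rw [LaurentSeries.coe_algebraMap, PowerSeries.coeff_coe, if_pos hn]
  · intro h
    refine ⟨PowerSeries.mk fun n => z.coeff n, ?_⟩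
    rw [LaurentSeries.coe_algebraMap]
    ext n
    rw [PowerSeries.coeff_coe]
    split_ifs with hn
    · exact (h n hn).symm
    · rw [PowerSeries.coeff_mk, Int.natAbs_of_nonneg (not_lt.1 hn)]

theorem good_ne {τ : LaurentSeries (ZMod p)} (h : Gd p τ) : τ ≠ 0 := by
  rintro rfl
  exact h ⟨0, 1, one_pow _, by rw [zero_pow (Nat.succ_ne_zero p), mul_zero]⟩

/-- the order of a good element is not divisible by `p + 1` -/
theorem good_order (hR : S_ROOT) {τ : LaurentSeries (ZMod p)} (h : Gd p τ) (j : ℤ) :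
    HahnSeries.order τ ≠ ((p : ℤ) + 1) * j := by
  intro hj
  have hτ := good_ne h
  have hc : τ.coeff (HahnSeries.order τ) ≠ 0 := HahnSeries.coeff_order_eq_zero.not.2 hτ
  obtain ⟨c0, hc0⟩ : ∃ c0, c0 = τ.coeff (HahnSeries.order τ) := ⟨_, rfl⟩
  rw [← hc0] at hc
  obtain ⟨y, hy⟩ := hR p (HahnSeries.single (-(HahnSeries.order τ)) c0⁻¹ * τ) (by
    intro n hn
    rw [HahnSeries.coeff_single_mul, sub_neg_eq_add,
      HahnSeries.coeff_eq_zero_of_lt_order (by linarith), mul_zero]) (by
    rw [HahnSeries.coeff_single_mul, sub_neg_eq_add, zero_add, ← hc0, inv_mul_cancel₀ hc])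
  apply h
  refine ⟨HahnSeries.single j 1 * y, HahnSeries.single (0 : ℤ) c0, ?_, ?_⟩
  · rw [HahnSeries.single_pow, smul_zero, ZMod.pow_card_sub_one_eq_one hc]
    exact HahnSeries.single_zero_one
  · rw [mul_pow, hy, HahnSeries.single_pow, one_pow, ← mul_assoc, ← mul_assoc,
      HahnSeries.single_mul_single, HahnSeries.single_mul_single, mul_one, mul_inv_cancel₀ hc]
    have e : (0 : ℤ) + (p + 1) • j + -(HahnSeries.order τ) = 0 := by
      rw [hj, nsmul_eq_mul]
      push_cast
      ring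
    rw [e, HahnSeries.single_zero_one, one_mul]

/-- the coefficients of a sum with `1` -/
theorem coeff_ne {T : LaurentSeries (ZMod p)} {n : ℤ} (hn : n ≠ 0) :
    (1 + T : LaurentSeries (ZMod p)).coeff n = T.coeff n := by
  rw [HahnSeries.coeff_add, HahnSeries.coeff_one, if_neg hn, zero_add]

theorem order_neg {T : LaurentSeries (ZMod p)} (hT : T ≠ 0) (h : HahnSeries.order T < 0) :
    (1 + T : LaurentSeries (ZMod p)) ≠ 0 ∧
      HahnSeries.order (1 + T : LaurentSeries (ZMod p)) = HahnSeries.order T := by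
  have h1 : (1 + T : LaurentSeries (ZMod p)).coeff (HahnSeries.order T) ≠ 0 := by
    rw [coeff_ne h.ne]
    exact HahnSeries.coeff_order_eq_zero.not.2 hT
  have h2 : (1 + T : LaurentSeries (ZMod p)) ≠ 0 := by
    intro h0
    rw [h0] at h1
    exact h1 rfl
  refine ⟨h2, le_antisymm (HahnSeries.order_le_of_coeff_ne_zero h1) ?_⟩
  by_contra hcon
  rw [not_le] at hcon
  have h3 := HahnSeries.coeff_order_eq_zero.not.2 h2
  rw [coeff_ne (hcon.trans h).ne] at h3
  exact h3 (HahnSeries.coeff_eq_zero_of_lt_order hcon)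

theorem order_T {τ z : LaurentSeries (ZMod p)} (hτ : τ ≠ 0) (hz : z ≠ 0) :
    τ * z ^ (p + 1) ≠ 0 ∧ HahnSeries.order (τ * z ^ (p + 1)) =
      HahnSeries.order τ + ((p : ℤ) + 1) * HahnSeries.order z := by
  have h1 : z ^ (p + 1) ≠ 0 := pow_ne_zero _ hz
  refine ⟨mul_ne_zero hτ h1, ?_⟩
  rw [HahnSeries.order_mul hτ h1, HahnSeries.order_pow, nsmul_eq_mul]
  push_cast
  rfl

/-- the elements of the definable set have bounded poles -/
theorem bound (hR : S_ROOT) {τ z : LaurentSeries (ZMod p)} (h : Gd p τ) (hz : z ≠ 0)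
    (ho : OT (p + 1) τ z) : 0 ≤ HahnSeries.order τ + ((p : ℤ) + 1) * HahnSeries.order z := by
  by_contra hcon
  rw [not_le] at hcon
  have hτ := good_ne h
  obtain ⟨t1, t2⟩ := order_T hτ hz
  rw [← t2] at hcon
  obtain ⟨u1, u2⟩ := order_neg t1 hcon
  obtain ⟨y, hy⟩ := ho
  rw [← hy, t2, HahnSeries.order_pow, nsmul_eq_mul] at u2
  push_cast at u2
  refine good_order hR h (HahnSeries.order y - HahnSeries.order z) ?_
  linarith

/-- series with a zero of high order belong to the definable set -/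
theorem inside (hR : S_ROOT) {τ z : LaurentSeries (ZMod p)} (hτ : τ ≠ 0)
    (hz : ∀ n : ℤ, n < |HahnSeries.order τ| + 1 → z.coeff n = 0) : OT (p + 1) τ z := by
  have hT : ∀ n : ℤ, n ≤ 0 → (τ * z ^ (p + 1)).coeff n = 0 := by
    intro n hn
    by_cases h0 : z = 0
    · rw [h0, zero_pow (Nat.succ_ne_zero p), mul_zero]
      rfl
    · obtain ⟨-, t2⟩ := order_T hτ h0
      apply HahnSeries.coeff_eq_zero_of_lt_order
      rw [t2]
      have h1 : |HahnSeries.order τ| + 1 ≤ HahnSeries.order z := by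
        by_contra hcon
        rw [not_le] at hcon
        exact (HahnSeries.coeff_order_eq_zero.not.2 h0) (hz _ hcon)
      have h2 := neg_abs_le (HahnSeries.order τ)
      have h3 := abs_nonneg (HahnSeries.order τ)
      have hp : (0 : ℤ) ≤ p := Int.natCast_nonneg p
      have h4 : 0 ≤ (p : ℤ) * HahnSeries.order z := mul_nonneg hp (by linarith)
      linarith
  obtain ⟨y, hy⟩ := hR p (1 + τ * z ^ (p + 1)) (by
    intro n hn
    rw [coeff_ne hn.ne]
    exact hT n hn.le) (by
    rw [HahnSeries.coeff_add, HahnSeries.coeff_one, if_pos rfl, hT 0 le_rfl, add_zero])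
  exact ⟨y, hy⟩

end

/-- Finiteness of the sets which are bounded and discrete for the definable set. -/
theorem t_FIN2 : Pool.Agent.Y924.UF.S_ROOT → Pool.Agent.Y924.UF.S_FIN →
    Pool.Agent.Y924.UF.S_FIN2 := by
  intro hR hF p _ τ hG S ⟨b, c, hb, hc, hS1, hS2⟩
  have hτ := good_ne hG
  obtain ⟨M, hM⟩ : ∃ M : ℤ, M = |HahnSeries.order τ| := ⟨_, rfl⟩
  have hM0 : 0 ≤ M := by rw [hM]; exact abs_nonneg _
  have hs : ∀ k : ℤ, (HahnSeries.single k (1 : ZMod p) : LaurentSeries (ZMod p)) ≠ 0 :=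
    fun k => HahnSeries.single_ne_zero one_ne_zero
  rw [hF]
  refine ⟨b * HahnSeries.single (M + 1) 1, c * HahnSeries.single (-M) 1, mul_ne_zero hb (hs _),
    mul_ne_zero hc (hs _), ?_, ?_⟩
  · intro x hx
    obtain ⟨z, hz, hcz⟩ := hS1 x hx
    refine ⟨HahnSeries.single M 1 * z, ?_, ?_⟩
    · rw [mem_OO]
      intro n hn
      rw [HahnSeries.coeff_single_mul, one_mul]
      by_cases h0 : z = 0
      · rw [h0]
        rfl
      · apply HahnSeries.coeff_eq_zero_of_lt_order
        have h1 := bound hR hG h0 hz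
        have h2 := le_abs_self (HahnSeries.order τ)
        rw [← hM] at h2
        by_contra hcon
        rw [not_lt] at hcon
        have h3 : HahnSeries.order z ≤ -M - 1 := by linarith
        have hp : (0 : ℤ) ≤ p := Int.natCast_nonneg p
        have h4 : (p : ℤ) * HahnSeries.order z ≤ p * (-M - 1) := mul_le_mul_of_nonneg_left h3 hp
        have h5 : (p : ℤ) * (-M - 1) ≤ 0 := mul_nonpos_of_nonneg_of_nonpos hp (by linarith)
        linarith
    · rw [← hcz, mul_assoc, ← mul_assoc (HahnSeries.single (-M) 1), HahnSeries.single_mul_single,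
        neg_add_cancel, mul_one, HahnSeries.single_zero_one, one_mul]
  · rintro x y hx hy ⟨z, y', hz, h1, h2⟩
    refine hS2 x y hx hy ⟨HahnSeries.single (M + 1) 1 * z, y', ?_, ?_, h2⟩
    · apply inside hR hτ
      intro n hn
      rw [HahnSeries.coeff_single_mul, one_mul]
      have hz' : ∀ n : ℤ, n < 0 → z.coeff n = 0 := (mem_OO z).1 hz
      apply hz'
      rw [hM]
      linarith
    · rw [← mul_assoc]
      exact h1

end Pool.Agent.Y155.UF
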